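import Pool.Agent.R299.NCH.Defs

/-!
# Families of noncommutative varieties `D(A) ⊠ 𝒟`: definitions

Let `Y → B` be a family of smooth proper complex varieties, over a (covering of a) complex variety
`B`, on which the local system of the rational topological K-theory of the fibres is trivialized: it
is `ℚ ^ v`, and the Hodge structure of the fibre `Y_b` is `Y b : Coh v`, given by its Hodge operator
`(Y b).z`, the multiplication by `p - q` on the classes of type `(p, q)` (its kernel is the part in
`HH_0`).

A `B`-linear admissible subcategory `𝒟` of `D_perf(Y)` is given by the projector `P` of the local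
system defined by the projection functor onto `𝒟`. As the kernel of the projection functor is defined
over `B`, the projector is flat, and it commutes with the Hodge operators of all fibres. The local
system `K^top(𝒟 / B) ⊗ ℚ` is the image of `P`, with the induced Hodge structures.

A family `A` of abelian varieties over `B` is given by the inclusions `per b : W → T` of the
(trivialized) rational homology `W` of the fibre `A_b` in its tangent space. The flat classes of
`D(A) ⊠_B 𝒟`, the admissible subcategory of `D_perf(A ×_B Y)` generated by the products of objects of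
`D(A)` and `𝒟` (the base change of `𝒟` to `A`), are the alternating forms on `W` with values in
`K^top(𝒟 / B) ⊗ ℚ`, elements of `HAZ W v`.
-/

set_option autoImplicit false

namespace Pool.Agent.H734_ncv

open Matrix Module Pool.Agent.H204R3.CM Pool.Agent.TH131.GHC Pool.Agent.TH504.VY
  Pool.Agent.R299.NCH

/-- `P` is the projector of the local system `ℚ ^ v` that is defined by the projection functor onto a
`B`-linear admissible subcategory `𝒟`: it is idempotent and commutes with the Hodge operators of all
fibres. -/
def IsFlatProjector {B : Type} {v : ℕ} (Y : B → Coh v) (P : Matrix (Fin v) (Fin v) ℚ) : Prop :=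
  ∀ b, IsProjector (Y b) P

/-- Through each point `b` of `B` there is a connected complex manifold (an open set `U` of a space
`ℂ ^ d`, mapped to `B`) along which the Hodge structure of `K^top(𝒟_b)` is constant and all the
families `Z i` of abelian varieties are moving. Nothing is assumed about the variation of the Hodge
structure of the ambient family `Y`. -/
def MovesRelativeTo {ι B : Type} {g : ι → ℕ} {v : ℕ}
    (Z : ∀ i, B → Matrix (Fin (g i)) (Fin (g i)) ℂ) (Y : B → Coh v)
    (P : Matrix (Fin v) (Fin v) ℚ) : Prop :=
  ∀ b, ∃ (d : ℕ) (U : Set (Fin d → ℂ)) (φ : (Fin d → ℂ) → B), IsOpen U ∧ IsPreconnected U ∧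
    b ∈ φ '' U ∧ (∀ t ∈ U, cm P * (Y (φ t)).z = cm P * (Y b).z) ∧
    ∀ i, IsMovingFamily U (fun t => Z i (φ t))

section

variable {B W T : Type} [AddCommGroup W] [Module ℚ W] [AddCommGroup T] [Module ℂ T]

/-- The images `obj b` of `K_0(𝒟_b) ⊗ ℚ` and `objA b` of `K_0(D(A_b) ⊠ 𝒟_b) ⊗ ℚ` in the topological
K-theory, with three of their properties. -/
structure ObjectClasses (per : B → W →+ T) (v : ℕ) where
  /-- the classes of objects of `𝒟_b` -/
  obj : B → Submodule ℚ (Fin v → ℚ)
  /-- the classes of objects of `D(A_b) ⊠ 𝒟_b` -/
  objA : B → Submodule ℚ (HAZ W v)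
  /-- The product of a product of divisor classes on `A_b` (a combination of Chern characters of
  objects of `D(A_b)`) and of the class of an object of `𝒟_b` is a combination of classes of objects
  of `D(A_b) ⊠ 𝒟_b`. -/
  box : ∀ (b : B) (k : ℕ), ∀ f ∈ divisorSpan (per b) k, ∀ x ∈ obj b, cross f x ∈ objA b
  /-- The direct image functor of the projection of `A_b × Y_b` to `Y_b` maps the tensor product of an
  object of `D(A_b) ⊠ 𝒟_b` and the pull-back of an object of `D(A_b)` to an object of `𝒟_b`. -/
  push : ∀ b : B, ∀ F ∈ objA b, ∀ (k j : ℕ) (e : Basis (Fin k ⊕ Fin j) ℚ W),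
    ∀ β ∈ divisorSpan (per b) j, fibreIntegral e F β ∈ obj b
  /-- The restriction of an object of `D(A_b) ⊠ 𝒟_b` to the fibre over the origin of `A_b` is an object
  of `𝒟_b`. -/
  origin : ∀ b : B, ∀ F ∈ objA b, F 0 (fun l => l.elim0) ∈ obj b

/-- The span of the products `f ⊗ x`, where `f` is, on all `A_b`, a combination of products of divisor
classes and `x` is a flat class of `𝒟` that is a Hodge class of all `𝒟_b`. -/
def productSections (per : B → W →+ T) {v : ℕ} (Y : B → Coh v) (P : Matrix (Fin v) (Fin v) ℚ) :
    Submodule ℚ (HAZ W v) :=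
  Submodule.span ℚ {G | ∃ (k : ℕ) (f : W [⋀^Fin k]→ₗ[ℚ] ℚ) (x : Fin v → ℚ),
    (∀ b, f ∈ divisorSpan (per b) k) ∧ (∀ b, IsHodgeD (Y b) P x) ∧ G = cross f x}

/-- Each flat class of `D(A) ⊠ 𝒟` which is a Hodge class of all `D(A_b) ⊠ 𝒟_b` is a sum of products
as in `productSections`. -/
def HodgeSectionsAreProducts (per : B → W →+ T) {v : ℕ} (Y : B → Coh v)
    (P : Matrix (Fin v) (Fin v) ℚ) : Prop :=
  ∀ F, (∀ b, IsHodgeAD (per b) (Y b) P F) → F ∈ productSections per Y P

/-- The noncommutative variational Hodge conjecture for `D(A) ⊠ 𝒟` is equivalent to the noncommutative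
variational Hodge conjecture for `𝒟`: flat classes which are Hodge classes in all fibres and
combinations of classes of objects in one fibre are combinations of classes of objects in all
fibres. -/
def VariationalEquiv (per : B → W →+ T) {v : ℕ} (Y : B → Coh v) (P : Matrix (Fin v) (Fin v) ℚ) :
    Prop :=
  ∀ C : ObjectClasses per v,
    (Variational (fun b => IsHodgeAD (per b) (Y b) P) C.objA ↔
      Variational (fun b => IsHodgeD (Y b) P) C.obj)

/-- If the Hodge classes of all `𝒟_b` are combinations of classes of objects (the noncommutative Hodge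
conjecture for the fibres of `𝒟`), then so are, in all fibres, the flat classes of `D(A) ⊠ 𝒟` which are
Hodge classes in all fibres. -/
def SectionsAlgebraic (per : B → W →+ T) {v : ℕ} (Y : B → Coh v) (P : Matrix (Fin v) (Fin v) ℚ) :
    Prop :=
  ∀ C : ObjectClasses per v, (∀ b, NCHodge (Y b) P (C.obj b)) →
    ∀ F, (∀ b, IsHodgeAD (per b) (Y b) P F) → ∀ b, F ∈ C.objA b

end

end Pool.Agent.H734_ncv
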