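import Pool.Agent.H734_ncv.Defs
import Pool.Agent.R299.NCH.Main
import Pool.Agent.TH504.VY.Main

/-!
# The noncommutative variational Hodge conjecture for `D(A) ⊠ 𝒟`
-/

set_option autoImplicit false
set_option linter.unusedSectionVars false

namespace Pool.Agent.H734_ncv

open Matrix Module Pool.Agent.H204R3.CM Pool.Agent.TH131.GHC Pool.Agent.TH504.VY
  Pool.Agent.R299.NCH

noncomputable section

variable {B W T : Type} [AddCommGroup W] [Module ℚ W] [AddCommGroup T] [Module ℂ T]
  {per : B → W →+ T} {v : ℕ} {Y : B → Coh v} {P : Matrix (Fin v) (Fin v) ℚ}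

/-- The family of the Hodge structures of the categories `𝒟_b`. -/
def Yr (hP : IsFlatProjector Y P) (S : Split P) (b : B) : Coh S.r := restrict (Y b) (hP b) S

theorem movesRelative {ι : Type} {g : ι → ℕ} {Z : ∀ i, B → Matrix (Fin (g i)) (Fin (g i)) ℂ}
    (hP : IsFlatProjector Y P) (S : Split P) (h : MovesRelativeTo Z Y P) :
    MovesRelative Z (Yr hP S) := by
  intro b
  obtain ⟨d, U, φ, hU, hc, hb, hY, hm⟩ := h b
  refine ⟨d, U, φ, hU, hc, hb, fun t ht => ?_, hm⟩
  have hNP : cm S.N * cm P = cm S.N := by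
    rw [← hMN S, ← Matrix.mul_assoc, hNM, Matrix.one_mul]
  change cm S.N * (Y (φ t)).z * cm S.M = cm S.N * (Y b).z * cm S.M
  rw [← hNP, Matrix.mul_assoc (cm S.N), hY t ht, ← Matrix.mul_assoc (cm S.N)]

theorem fibreIntegral_app {m n : ℕ} (A : Matrix (Fin m) (Fin n) ℚ) {k j : ℕ}
    (e : Basis (Fin k ⊕ Fin j) ℚ W) (F : HAZ W n) (β : W [⋀^Fin j]→ₗ[ℚ] ℚ) :
    fibreIntegral e (app A F) β = A *ᵥ fibreIntegral e F β := by
  unfold fibreIntegral
  change _ = Matrix.mulVecLin A _
  rw [map_sum]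
  refine Finset.sum_congr rfl fun σ _ => ?_
  rw [app_apply, map_zsmul, map_smul]
  rfl

/-- The system of cycles of the restricted families. -/
def cyc (S : Split P) (C : ObjectClasses per v) : CycleSystem per S.r where
  alg b := (C.objA b).comap (appL W S.M)
  algY b := (C.obj b).comap (Matrix.mulVecLin S.M)
  cross_mem := by
    intro b k f hf x hx
    change app S.M (cross f x) ∈ C.objA b
    rw [app_cross]
    exact C.box b k f hf _ hx
  integral_mem := by
    intro b F hF k j e β hβ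
    change S.M *ᵥ fibreIntegral e F β ∈ C.obj b
    rw [← fibreIntegral_app]
    exact C.push b _ hF k j e β hβ

theorem isHodgeD_of (hP : IsFlatProjector Y P) (S : Split P) {b : B} {x : Fin S.r → ℚ}
    (hx : IsHodgeOn (Yr hP S b) x) : IsHodgeD (Y b) P (S.M *ᵥ x) := by
  refine ⟨?_, ?_⟩
  · rw [Matrix.mulVec_mulVec, PM]
  · change (Y b).z *ᵥ cv (S.M *ᵥ x) = 0
    have hx' : (restrict (Y b) (hP b) S).z *ᵥ cv x = 0 := hx
    rw [← cm_mulVec, Matrix.mulVec_mulVec, ← Mz (hP b) S, ← Matrix.mulVec_mulVec, hx',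
      Matrix.mulVec_zero]

theorem app_app (S : Split P) {F : HAZ W v} (hF : ∀ (k : ℕ) (w : Fin k → W), P *ᵥ F k w = F k w) :
    app S.M (app S.N F) = F := by
  funext k
  ext w : 1
  change S.M *ᵥ (S.N *ᵥ F k w) = F k w
  rw [Matrix.mulVec_mulVec, S.MN, hF k w]

theorem one_mem_divisorSpan (per : W →+ T) :
    (AlternatingMap.constOfIsEmpty ℚ W (Fin 0) (1 : ℚ)) ∈ divisorSpan per 0 := by
  refine Submodule.subset_span ⟨0, Equiv.equivOfIsEmpty _ _, fun l => l.elim0, fun l => l.elim0,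
    fun w => ?_⟩
  change (1 : ℚ) = _
  rw [Fintype.sum_unique, Finset.univ_eq_empty, Finset.prod_empty]
  simp

theorem sections [Nonempty B] (hP : IsFlatProjector Y P) (S : Split P)
    (h : HodgeClassesAreProducts per (Yr hP S)) : HodgeSectionsAreProducts per Y P := by
  intro F hF
  have h1 := h (app S.N F) fun b =>
    hodge_app (per b) S.N (Y b) (restrict (Y b) (hP b) S) (zN (hP b) S) (hF b).2
  obtain ⟨b₀⟩ := ‹Nonempty B›
  have h2 : F = appL W S.M (app S.N F) := (app_app S (hF b₀).1).symm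
  rw [h2]
  have h3 := Submodule.mem_map_of_mem (f := appL W S.M) h1
  rw [productClasses, Submodule.map_span] at h3
  refine Submodule.span_mono ?_ h3
  rintro _ ⟨G, ⟨k, f, x, hf, hx, rfl⟩, rfl⟩
  exact ⟨k, f, S.M *ᵥ x, hf, fun b => isHodgeD_of hP S (hx b), app_cross S.M f x⟩

theorem equiv [Nonempty B] (hP : IsFlatProjector Y P) (S : Split P)
    (h : VariationalFromY per (Yr hP S)) : VariationalEquiv per Y P := by
  intro C
  constructor
  · intro h1 x hx b₀ hb₀ b
    have h2 := h1 (oneBox W x) (fun b => oneBox_hodge (per b) (hx b)) b₀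
      (C.box b₀ 0 _ (one_mem_divisorSpan (per b₀)) x hb₀) b
    have h3 := C.origin b _ h2
    rwa [oneBox_zero] at h3
  · intro h1 F hF b₀ hb₀ b
    have h2 := h (cyc S C) (fun x hx b₁ hb₁ b₂ => h1 (S.M *ᵥ x)
      (fun b => isHodgeD_of hP S (hx b)) b₁ hb₁ b₂) (app S.N F) (fun b =>
        hodge_app (per b) S.N (Y b) (restrict (Y b) (hP b) S) (zN (hP b) S) (hF b).2) b₀ (by
          change app S.M (app S.N F) ∈ C.objA b₀
          rw [app_app S (hF b₀).1]
          exact hb₀) b
    change app S.M (app S.N F) ∈ C.objA b at h2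
    rwa [app_app S (hF b).1] at h2

theorem sections_algebraic (h : HodgeSectionsAreProducts per Y P) : SectionsAlgebraic per Y P := by
  intro C hC F hF b
  have h1 : productSections per Y P ≤ C.objA b := by
    refine Submodule.span_le.2 ?_
    rintro _ ⟨k, f, x, hf, hx, rfl⟩
    exact C.box b k f (hf b) x (hC b x (hx b))
  exact h1 (h F hF)

/-- **The noncommutative variational Hodge conjecture** for `D(A) ⊠ 𝒟`. -/
theorem main {ι : Type} [Nonempty B] {g : ι → ℕ}
    (Z : ∀ i, B → Matrix (Fin (g i)) (Fin (g i)) ℂ) {n : ℕ} (c : Fin n → ι) {v : ℕ}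
    (Y : B → Coh v) (P : Matrix (Fin v) (Fin v) ℚ) (hP : IsFlatProjector Y P)
    (hmov : MovesRelativeTo Z Y P) :
    HodgeSectionsAreProducts (fibreProduct Z c) Y P ∧ SectionsAlgebraic (fibreProduct Z c) Y P ∧
      VariationalEquiv (fibreProduct Z c) Y P := by
  obtain ⟨b₀⟩ := ‹Nonempty B›
  obtain ⟨S⟩ := exists_split (hP b₀).idem
  haveI : Nonempty B := ⟨b₀⟩
  obtain ⟨h1, h2⟩ := Pool.Agent.TH504.VY.main Z c (Yr hP S) (movesRelative hP S hmov)
  exact ⟨sections hP S h1, sections_algebraic (sections hP S h1), equiv hP S h2⟩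

end

end Pool.Agent.H734_ncv
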